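import Mathlib
import Pool.Agent.H208.Continuum

/-! # MP_edeaa2_an: one counterexample gives continuum many inequivalent ones

Let `d ≥ 3`, let `g` be a real invertible `d × d` matrix, and suppose that the product of the
linear forms given by its rows has absolute value at least `ν > 0` at all nonzero integer points and
is not proportional to an integral form. Then there is a family of matrices `f s`, indexed by the
binary sequences `s : ℕ → Bool`, such that

* every `f s` is a limit of matrices `diag(a_n) g γ_n` with `a_n` positive of product `1` and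
  `γ_n ∈ GL_d(ℤ)`, and it has the same absolute determinant as `g`;
* the product of the linear forms of `f s` is not proportional to an integral form;
* its absolute values at nonzero integer points have infimum `μ ≥ ν`, the same for all `s`, and the
  closure `V` of its set of values at integer points is uncountable and the same for all `s`;
* for `s ≠ t` the forms of `f s` and `f t` are inequivalent, even up to a real factor. -/

open Filter Topology Matrix

namespace Pool.Agent.Results.MP_edeaa2_an.ContinuumMany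

theorem result (d : ℕ) (hd : 3 ≤ d) (g : Matrix (Fin d) (Fin d) ℝ) (hg : g.det ≠ 0) (ν : ℝ)
    (hν : 0 < ν)
    (hnu : ∀ x : Fin d → ℤ, x ≠ 0 → ν ≤ |∏ i : Fin d, ∑ j : Fin d, g i j * (x j : ℝ)|)
    (hint : ¬ ∃ c : ℝ, c ≠ 0 ∧ ∀ m : Fin d →₀ ℕ, ∃ z : ℤ, MvPolynomial.coeff m
        (c • (∏ i : Fin d, ∑ j : Fin d,
          MvPolynomial.C (g i j) * MvPolynomial.X j : MvPolynomial (Fin d) ℝ)) = (z : ℝ)) :
    ∃ (μ : ℝ) (V : Set ℝ) (f : (ℕ → Bool) → Matrix (Fin d) (Fin d) ℝ), ν ≤ μ ∧ ¬ V.Countable ∧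
      (∀ s, |(f s).det| = |g.det| ∧
        (∃ (a : ℕ → Fin d → ℝ) (γ : ℕ → Matrix (Fin d) (Fin d) ℤ),
          (∀ n i, 0 < a n i) ∧ (∀ n, ∏ i, a n i = 1) ∧ (∀ n, IsUnit (γ n).det) ∧
          Tendsto (fun n => Matrix.diagonal (a n) * g * (γ n).map (Int.cast : ℤ → ℝ)) atTop
            (𝓝 (f s))) ∧
        (¬ ∃ c : ℝ, c ≠ 0 ∧ ∀ m : Fin d →₀ ℕ, ∃ z : ℤ, MvPolynomial.coeff m
          (c • (∏ i : Fin d, ∑ j : Fin d,
            MvPolynomial.C (f s i j) * MvPolynomial.X j : MvPolynomial (Fin d) ℝ)) = (z : ℝ)) ∧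
        IsGLB {t : ℝ | ∃ x : Fin d → ℤ, x ≠ 0 ∧
          |∏ i : Fin d, ∑ j : Fin d, f s i j * (x j : ℝ)| = t} μ ∧
        closure (Set.range fun x : Fin d → ℤ =>
          ∏ i : Fin d, ∑ j : Fin d, f s i j * (x j : ℝ)) = V) ∧
      ∀ s t, s ≠ t → ∀ (γ : Matrix (Fin d) (Fin d) ℤ) (c : ℝ), IsUnit γ.det →
        ∃ x : Fin d → ℤ, ∏ i : Fin d, ∑ j : Fin d, f s i j * (x j : ℝ) ≠
          c * ∏ i : Fin d, ∑ j : Fin d, f t i j * ((γ *ᵥ x) j : ℝ) := by
  obtain ⟨f, h1, h2, h3⟩ := H208.continuum hd hg hν hnu hint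
  have hd0 : 0 < d := by omega
  refine ⟨H715R2.nuInf (f fun _ => true), H715R2.VV (f fun _ => true), f,
    H715R2.le_nuInf hd0 (h1 _).2.1, (h1 _).2.2.2, ?_, h3⟩
  intro s
  refine ⟨H715R2.abs_det_closure (h1 s).1, ?_, (h1 s).2.2.1, ?_, (h2 s _).2.1⟩
  · obtain ⟨u, hu, hlim⟩ := H715R2.exists_seq_of_mem_closure (h1 s).1
    choose a γ ha0 ha hγ hun using hu
    refine ⟨a, γ, ha0, ha, hγ, ?_⟩
    have : u = fun n => Matrix.diagonal (a n) * g * (γ n).map (Int.cast : ℤ → ℝ) :=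
      funext fun n => hun n
    rwa [this] at hlim
  · rw [← (h2 s _).1]
    have := H715R2.nonempty_ne hd0
    have h4 := isGLB_ciInf (H715R2.nuInf_bdd (f s))
    have h5 : {t : ℝ | ∃ x : Fin d → ℤ, x ≠ 0 ∧
          |∏ i : Fin d, ∑ j : Fin d, f s i j * (x j : ℝ)| = t} =
        Set.range fun x : {x : Fin d → ℤ // x ≠ 0} => |H715R2.FF (f s) (H715R2.iR x.1)| := by
      ext t
      constructor
      · rintro ⟨x, hx, rfl⟩
        exact ⟨⟨x, hx⟩, rfl⟩
      · rintro ⟨⟨x, hx⟩, rfl⟩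
        exact ⟨x, hx, rfl⟩
    rw [h5]
    exact h4

end Pool.Agent.Results.MP_edeaa2_an.ContinuumMany
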